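import Pool.Agent.Y507.CMC.Stm

/-!
# The image of the unit disk under a fibrewise affine homeomorphism (helper905)
-/

set_option autoImplicit false

open MeasureTheory Set Metric
open Pool.Agent.Y507.CMC

namespace Pool.Agent.Y905.CMC

theorem cont_mk {X : Type} [TopologicalSpace X] {a b : X → ℝ} (ha : Continuous a)
    (hb : Continuous b) : Continuous fun u => (!₂[a u, b u] : E2) := by
  refine (PiLp.continuous_toLp 2 _).comp (continuous_pi ?_)
  rw [Fin.forall_fin_two]
  exact ⟨ha, hb⟩

theorem cont_0 (i : Fin 2) : Continuous fun u : E2 => u i := by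
  fun_prop

/-- the homeomorphism -/
noncomputable def Phi (g k : ℝ → ℝ) (hg : Continuous g) (hk : Continuous k)
    (h0 : ∀ x, 0 < k x) : E2 ≃ₜ E2 where
  toFun u := !₂[u 0, g (u 0) + k (u 0) * u 1]
  invFun x := !₂[x 0, (x 1 - g (x 0)) / k (x 0)]
  left_inv u := by
    have h1 := (h0 (u 0)).ne'
    ext i
    fin_cases i
    · rfl
    · show (g (u 0) + k (u 0) * u 1 - g (u 0)) / k (u 0) = u 1
      field_simp
      ring
  right_inv x := by
    have h1 := (h0 (x 0)).ne'
    ext i
    fin_cases i
    · rfl
    · show g (x 0) + k (x 0) * ((x 1 - g (x 0)) / k (x 0)) = x 1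
      field_simp
      ring
  continuous_toFun := cont_mk (cont_0 0)
    ((hg.comp (cont_0 0)).add ((hk.comp (cont_0 0)).mul (cont_0 1)))
  continuous_invFun := cont_mk (cont_0 0)
    (((cont_0 1).sub (hg.comp (cont_0 0))).div (hk.comp (cont_0 0)) fun x => (h0 _).ne')

theorem thm : S_DOM := by
  intro g k hg hk h0
  have hdom : dom g k = Phi g k hg hk h0 '' ball (0 : E2) 1 := by
    rw [← congrFun (Phi g k hg hk h0).preimage_symm (ball (0 : E2) 1),
      EuclideanSpace.ball_zero_eq 1 zero_le_one]
    ext x
    rw [mem_preimage, mem_setOf_eq, Fin.sum_univ_two, one_pow]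
    rfl
  have hran : range (cur g k) = Phi g k hg hk h0 '' sphere (0 : E2) 1 := by
    rw [EuclideanSpace.sphere_zero_eq 1 zero_le_one]
    ext x
    constructor
    · rintro ⟨t, rfl⟩
      refine ⟨!₂[Real.cos (2 * Real.pi * t), Real.sin (2 * Real.pi * t)], ?_, rfl⟩
      rw [mem_setOf_eq, Fin.sum_univ_two, one_pow]
      exact Real.cos_sq_add_sin_sq _
    · rintro ⟨u, hu, rfl⟩
      rw [mem_setOf_eq, Fin.sum_univ_two, one_pow] at hu
      obtain ⟨z, hz⟩ : ∃ z : ℂ, z = ⟨u 0, u 1⟩ := ⟨_, rfl⟩
      have hre : z.re = u 0 := by rw [hz]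
      have him : z.im = u 1 := by rw [hz]
      have hn : ‖z‖ = 1 := by
        have h1 : ‖z‖ ^ 2 = 1 := by
          rw [← Complex.normSq_eq_norm_sq, Complex.normSq_apply, hre, him]
          linarith
        have h2 := norm_nonneg z
        nlinarith
      have hz0 : z ≠ 0 := by
        rintro rfl
        rw [norm_zero] at hn
        exact zero_ne_one hn
      have hcos : Real.cos (Complex.arg z) = u 0 := by
        rw [Complex.cos_arg hz0, hn, div_one, hre]
      have hsin : Real.sin (Complex.arg z) = u 1 := by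
        rw [Complex.sin_arg, hn, div_one, him]
      refine ⟨Complex.arg z / (2 * Real.pi), ?_⟩
      have h3 : 2 * Real.pi * (Complex.arg z / (2 * Real.pi)) = Complex.arg z := by
        have := Real.pi_ne_zero
        field_simp
      show !₂[Real.cos (2 * Real.pi * (Complex.arg z / (2 * Real.pi))),
        g (Real.cos (2 * Real.pi * (Complex.arg z / (2 * Real.pi)))) +
        k (Real.cos (2 * Real.pi * (Complex.arg z / (2 * Real.pi)))) *
          Real.sin (2 * Real.pi * (Complex.arg z / (2 * Real.pi)))] = _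
      rw [h3, hcos, hsin]
      rfl
  refine ⟨?_, ?_, ?_, ?_⟩
  · rw [hdom]
    exact (Phi g k hg hk h0).isOpenMap _ isOpen_ball
  · rw [hdom]
    exact (((convex_ball (0 : E2) 1).isPathConnected ⟨0, mem_ball_self one_pos⟩).isConnected).image
      _ (Phi g k hg hk h0).continuous.continuousOn
  · rw [hdom]
    exact ((isCompact_closedBall (0 : E2) 1).image
      (Phi g k hg hk h0).continuous).isBounded.subset (image_mono ball_subset_closedBall)
  · rw [hdom, hran, ← Homeomorph.image_frontier, frontier_ball (0 : E2) one_ne_zero]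

end Pool.Agent.Y905.CMC

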